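import Pool.Graph.R_pool_sql_team_seeded_2aa45f1a.Q193.LT.Cyc
import Pool.Agent.H502.HQ.Main
import Pool.Agent.H502.HQ.Lin

/-!
# Beilinson's regulator and points on the projective line with prescribed harmonic quadruples

Four different points `p, q, r, s` of the projective line form a harmonic quadruple `(p, q; r, s)` if
their cross ratio is `-1`. For a finite set `H` of quadruples of the labels of the `n + 3` points
`∞, 0, 1, x_1, …, x_n` let `X_H` be the space of all `n`-tuples of points `x_i` of the projective line,
different from each other and from `∞, 0, 1`, such that the quadruples in `H` are harmonic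
(`harmS ℚ n H`). It is a closed subscheme of the moduli space `M_{0, n+3}` of `n + 3` different points
of the projective line, defined over `ℚ` by equations `x_i + x_j = 2 x_k` and
`(x_i - x_k) (x_j - x_l) + (x_i - x_l) (x_j - x_k) = 0`, where the letters may also stand for `0`, `1`.

We show that every integral affine scheme `X` of finite type over `ℚ` has a non-empty open subscheme
that is isomorphic to a space `X_H` (of the same dimension), where moreover all the quadruples in `H`
contain one of the two fixed points `∞` and `1`. The proof is von Staudt's algebra of throws, and the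
point is that degenerate positions do not occur: if two elements of the function field that appear in
the construction are equal, then they are given by one point `x_i`.

For a Chow motive `N` over `ℚ` let `H^k_M(N, ℚ(n))_ℤ` be the integral part of the motivic cohomology
(in the definition of Scholl, which is functorial in Chow motives) and `H^k_D(N_ℝ, ℝ(n))` the real
Deligne-Beilinson cohomology. The regulator is a natural map
`H^k_M(N, ℚ(n))_ℤ ⊗ ℝ → H^k_D(N_ℝ, ℝ(n))`. Question Q1 says that it is an isomorphism for all motives
`N = h(X)` and all `k`, `n` with `2n - k ≥ 2` (`k = i + 1`, `n = i + 1 - m`, and `m < i/2` means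
`2n - k ≥ 2`); this is the part of Q1 before the `L`-values enter.

For a separated scheme `X` of finite type over `ℚ` let `W(X)` be its weight complex (Gillet, Soulé), a
complex of Chow motives. For the indices `(w, n, j)`, `w ∈ ℕ`, `n, j ∈ ℤ`, put `k = 2n - w - 2` and let
`A^{w,n,j}(X) = H^j(H^k_M(W(X), ℚ(n))_ℤ ⊗ ℝ)`, `B^{w,n,j}(X) = H^j(H^k_D(W(X)_ℝ, ℝ(n)))`. The
regulator induces maps `A^{w,n,j}(X) → B^{w,n,j}(X)`. For smooth projective `X` these are the regulators
for `X` if `j = 0`, and the groups for `j ≠ 0` are zero. `BijAll C X` says that the maps are isomorphisms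
for all `(w, n, j)`; for smooth projective `X` this is the statement above for `X`.

**Theorem.** (1) For all `d`, the regulators are isomorphisms for all smooth projective varieties of
dimension at most `d` over `ℚ` if and only if the maps `A^{w,n,j}(X_H) → B^{w,n,j}(X_H)` are
isomorphisms for all smooth integral `X_H` of dimension at most `d` such that all the quadruples in `H`
contain `∞` or `1`.

(2) Unconditionally, the maps are isomorphisms for all `X_H` such that all the quadruples in `H` contain
the point `∞`. (So two points are enough for all varieties, and one point gives only known cases.)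

(3) Every domain `A` of finite type over `ℚ` has an element `f ≠ 0` such that `Spec A[1/f]` is
isomorphic to a space `X_H` such that all the quadruples in `H` contain `∞` or `1`.
-/

set_option autoImplicit false

open CategoryTheory AlgebraicGeometry Pool.Agent.Y116.UV Pool.Agent.Z125.UN Pool.Agent.Q193.LT
  Pool.Agent.H502.HQ

universe w

namespace Pool.Agent.Results.MP_15b3df_nt.HarmonicQuadruples

/-- The indices `(w, n, j)`. -/
abbrev Idx : Type := ℕ × ℤ × ℤ

/-- The shift `(w, n, j) ↦ (w, n, j + 1)`. -/
def shiftJ : Idx ≃ Idx := Equiv.prodCongr (Equiv.refl ℕ) shiftI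

/-- The Tate twist `(w, n, j) ↦ (w, n + 1, j)`. -/
def twist : Idx ≃ Idx := Equiv.prodCongr (Equiv.refl ℕ) shiftN

/-- The maps are isomorphisms for all smooth projective schemes of dimension at most `d`. -/
def Proj (C : PairData.{w} ℚ Idx ℝ) (d : ℕ) : Prop :=
  ∀ Y : Sch ℚ, SmoothProj Y → topologicalKrullDim Y.left ≤ d → BijAll C Y

/-- The maps are isomorphisms for all smooth integral spaces of harmonic configurations of dimension at
most `d` such that all the quadruples contain `∞` or `1`. -/
def Harmonic (C : PairData.{w} ℚ Idx ℝ) (d : ℕ) : Prop :=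
  ∀ (n : ℕ) (H : Finset (Fin 4 → Fin 3 ⊕ Fin n)), Meets H → Smooth (harmS ℚ n H).hom →
    IsIntegral (harmS ℚ n H).left → topologicalKrullDim (harmS ℚ n H).left ≤ d →
    BijAll C (harmS ℚ n H)

/-- **Regulators and harmonic quadruples.** See the explanations above. The known case that is used is
Borel's theorem for the field `ℚ` (`point`). -/
theorem result {C : PairData.{w} ℚ Idx ℝ} (hC : IsPair C shiftJ twist shiftJ)
    (hg : WeightGen C) (point : BijAll C (aff ℚ ℚ)) :
    (∀ d : ℕ, Proj C d ↔ Harmonic C d) ∧
    (∀ (n : ℕ) (H : Finset (Fin 4 → Fin 3 ⊕ Fin n)), (∀ h ∈ H, ∃ i, h i = Sum.inl 0) →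
      BijAll C (harmS ℚ n H)) ∧
    ∀ (A : Type) [CommRing A] [IsDomain A] [Algebra ℚ A] [Algebra.FiniteType ℚ A],
      ∃ (f : A) (n : ℕ) (H : Finset (Fin 4 → Fin 3 ⊕ Fin n)), f ≠ 0 ∧ Meets H ∧
        Nonempty (aff ℚ (Localization.Away f) ≅ harmS ℚ n H) := by
  have h2 : (2 : ℚ) ≠ 0 := two_ne_zero
  have hP := bnd_pair hC point
  refine ⟨fun d => ?_, fun n H hH => harm_lin hP H hH, ?_⟩
  · refine Iff.trans ?_ (harm_iff hP h2 frac_rat d)
    exact ⟨fun h => hg d h, fun h Y hY hd => h Y hY.ft hd⟩
  · intro A _ _ _ _
    obtain ⟨f, n, H, hf, hm, ⟨e⟩⟩ := exists_harm h2 A frac_rat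
    exact ⟨f, n, H, hf, hm, ⟨affIso e.symm⟩⟩

end Pool.Agent.Results.MP_15b3df_nt.HarmonicQuadruples
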