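import Pool.Agent.H504.BC.Reg

/-!
# Beilinson's conjectures and the middle weight of smooth cubic hypersurfaces over the integers

Questions Q1 and Q2 are about `H^i(X)` and an integer `m < i/2`, for smooth projective `X` over `ℚ` and all
`0 ≤ i ≤ 2 dim X`; put `a = i - 2m - 1 ∈ ℕ` and `n = i + 1 - m`, so `i = 2n - a - 3` and
`m = n - a - 2`. We show that they are equivalent to statements about smooth affine cubic hypersurfaces
`V` with integral coefficients and the **middle weight** `i = dim V` of the cohomology with compact
supports, and that every case `(X, i, m)` is equivalent to one such case `(V, i', m')`, `i' = dim V`, at the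
same distance `i' - 2m' = i - 2m` from the centre.

**The hypersurfaces.** A relation `r` between the variables `x_1, …, x_N` is one of the equations
`x_i x_j = x_l`, `x_i + x_j = x_l`, `x_i = 1`; let `ρ_r` be the polynomial `x_i x_j - x_l`,
`x_i + x_j - x_l` or `x_i - 1` (`relPoly`; `Rel (Fin N)` is the type of relations). For a nonempty finite
set `s` of relations there is one more variable `t_r` for every `r ∈ s`; let

  `F_s = ∑_{r ∈ s} t_r ρ_r(x_1, …, x_N)`   (`relCub R s`).

It has degree at most three and integral coefficients, and the affine hypersurface `F_s = 1`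
(`relHyp R s` over the ring `R`) in the affine space of dimension `N + |s|` is smooth over every ring
`R`; its dimension is `N + |s| - 1`.

**Regulators and volumes.** For a Chow motive `M` over `ℚ` let `H^k_M(M, ℚ(n))_ℤ` be the integral part of
the motivic cohomology (in the definition of Scholl, which is functorial in Chow motives and which is the
group of the problem for the motives of smooth projective varieties with a regular proper model), and
`H^k_D(M_ℝ, ℝ(n))` the real Deligne-Beilinson cohomology. For a separated scheme `X` of finite type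
over `ℚ` let `W(X)` be its weight complex (Gillet, Soulé), a complex of Chow motives. For
`a ∈ ℕ`, `n, j ∈ ℤ` put `k = 2n - a - 2` and let

* `A^{a,n,j}(X) = H^j(H^k_M(W(X), ℚ(n))_ℤ ⊗ ℝ)`, `B^{a,n,j}(X) = H^j(H^k_D(W(X)_ℝ, ℝ(n)))`; the
  regulator induces maps `A^{a,n,j}(X) → B^{a,n,j}(X)` (these are the data `D.C a n`);
* if all these maps are isomorphisms, `D.vol a n X ∈ ℝˣ / ℚˣ` is the class of the determinant of the
  complex `H^k_M(W(X), ℚ(n))_ℤ` in the determinant of the complex `H^k_D(W(X)_ℝ, ℝ(n))` with its natural
  rational structure, divided by the alternating product of the leading coefficients at `s = m` of the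
  `L`-functions of `H^i` of the terms of the complex `W(X)`, `i = k - 1`, `m = n - a - 2` (as in the
  problem, it is presupposed that the `L`-functions of motives continue meromorphically to a
  neighbourhood of `s = m`).

`RegIso D a n X`: the regulators `A^{a,n,j}(X) → B^{a,n,j}(X)` are isomorphisms for all `j`;
`RegVol D a n X`: moreover the class `D.vol a n X` is trivial. For smooth projective `X`, where the groups
for `j ≠ 0` are zero, these are question Q1 and questions Q1 and Q2 together, for `(X, i, m)`. (The
Deligne-Beilinson groups are of finite dimension, so an isomorphism gives the finiteness. The range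
`0 ≤ i ≤ 2 dim X` of the problem, for all `X`, gives all `n`, because `H^k_M(X, ℚ(n))` is a direct factor of
`H^{k+2j}_M(X × ℙ^r, ℚ(n+j))` for `0 ≤ j ≤ r`, and similarly for the other groups.)

**Theorem.** Let `P` be `RegIso D` or `RegVol D`, and `a ∈ ℕ`.

(1) The following are equivalent: for infinitely many `n` the statement `P a n` is true for all hypersurfaces
`V : F_s = 1` of dimension `2n - a - 3 = i`, so for the parts of weight `i = dim V` of their cohomology; the
same for all `n`; `P a n` is true for all smooth projective varieties over `ℚ` and all `n`; `P a n` is true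
for all separated schemes of finite type over `ℚ` and all `n`.

(2) For every affine scheme `Spec B` of finite type over `ℚ`, every `n` and all large `n'` there is a
hypersurface `V : F_s = 1` of dimension `i' = 2n' - a - 3` such that `P a n'` for `V` is **equivalent** to
`P a n` for `Spec B`.

(3) If Jouanolou's trick holds for the data (`Jouanolou D`: for every smooth projective `Y` there are an
affine scheme `Spec B` of finite type and a number `r`, such that the data of `Spec B` with the index
`n + r` are the data of `Y` with the index `n`; in fact there is an affine bundle `Spec B → Y` of rank `r`,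
and `W(Spec B) = W(Y) ⊗ L^r` for the Lefschetz motive `L`), then (2) is true for all smooth projective `Y`
instead of `Spec B`.

(4) For Q1 (`P = RegIso D`) **one statement for each member of one sequence** is sufficient: there is a
sequence of hypersurfaces `V_m` (the zero locus of `F_s = 1`, `s = s_m`) and indices `n_m`, with
`dim V_m = 2n_m - a - 3`, which depends only on `a`, such that `RegIso D a n` is true for all smooth
projective varieties and all `n` iff the single statement `RegIso D a n_m` (middle weight) is true for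
`V_m`, for infinitely many `m`; for every separated scheme `X` of finite type and every `n` there is an
`m₀` such that for every `m ≥ m₀` the statement for `V_m` implies `RegIso D a n` for `X`.

(5) `F_s` has degree at most three and integral coefficients, and `F_s = 1` is smooth over all rings.

The hypotheses `IsReg D` are standard properties of weight complexes, of motivic and Deligne-Beilinson
cohomology and of determinants; `hH` is Hironaka's theorem; `point` is the known case of the field `ℚ`
(Borel). No case of the conjectures for other varieties is assumed or proved.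

Idea of the proof. Every algebra of finite type over a prime field is defined by relations. If `Z` is the
zero set of the relations in `s`, then `F_s = 1` is an affine bundle of rank `|s| - 1` over the complement
of `Z` in the affine space, so `P a q` for `Z` is equivalent to `P a (q + |s| - 1)` for the hypersurface,
and this is about the middle weight iff the excess `β = 2 q + |s| - N` has the value `a + 4`. We change
the excess. A further variable `o` with the relations `o o = o` and `o + o = o` does not change
`Z`, and `β` grows by one. A further variable with the relation `u = 1` changes neither `Z` nor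
`β`. Finally let `Z'` be the product of `Z` and the quadric `∑_{l < K} x_l y_l = 1`, described by
relations with further variables. It is the affine bundle of rank `K - 1` over `Z × (𝔸^K - 0)`, and for
`q < K` the statement `P a q` for `Z × 𝔸^K` is trivially true, hence `P a q` for `Z` is equivalent to
`P a (q + K - 1)` for `Z'`. This step makes `β` smaller by one. For (4) the first step is applied to the
disjoint union of the products `X_s × 𝔸^{m-q}`, where `s` runs over all sets of relations between `m`
variables, `X_s` is the affine scheme defined by `s`, and `0 ≤ q ≤ m`, with the index `m`.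
-/

set_option autoImplicit false

open CategoryTheory CategoryTheory.Limits AlgebraicGeometry Pool.Agent.Y116.UV Pool.Agent.Z125.UN
  Pool.Agent.Q193.LT Pool.Agent.H854.SQ Pool.Agent.H367.OS Pool.Agent.H504.BC

universe w

namespace Pool.Agent.Results.MP_15b3df_nt.MiddleWeight

/-- The subgroup `ℚˣ` of `ℝˣ`. -/
noncomputable def ratUnits : Subgroup ℝˣ := (Units.map (algebraMap ℚ ℝ : ℚ →* ℝ)).range

/-- The statement `P a n` for all hypersurfaces `F_s = 1` of dimension `i = 2 n - a - 3`. -/
def Middle (P : ℕ → ℤ → Sch ℚ → Prop) (a n : ℕ) : Prop :=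
  ∀ (N : ℕ) (s : Finset (Rel (Fin N))), s.Nonempty → (s.card + N - 1 : ℤ) = 2 * n - a - 3 →
    P a n (relHyp ℚ s)

/-- The statement `P a n` for `X` is equivalent to the statement `P a n'` for one hypersurface
`F_s = 1` of dimension `i' = 2 n' - a - 3`, for all large `n'`. -/
def OneMiddle (P : ℕ → ℤ → Sch ℚ → Prop) (a : ℕ) (n : ℤ) (X : Sch ℚ) : Prop :=
  ∃ n₀ : ℕ, ∀ n' : ℕ, n₀ ≤ n' → ∃ (N : ℕ) (s : Finset (Rel (Fin N))), s.Nonempty ∧
    (s.card + N - 1 : ℤ) = 2 * n' - a - 3 ∧ (P a n' (relHyp ℚ s) ↔ P a n X)

/-- Jouanolou's trick for the data: the data of a smooth projective scheme are the shifted data of an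
affine scheme. -/
def Jouanolou (D : RegData.{w} (ℝˣ ⧸ ratUnits)) : Prop :=
  ∀ Y : Sch ℚ, SmoothProj Y → ∃ (r : ℕ) (B : Type) (_ : CommRing B) (_ : Algebra ℚ B),
    Algebra.FiniteType ℚ B ∧ ∀ (a : ℕ) (n : ℤ), Same (D.C a (n + r)) (D.C a n) (aff ℚ B) Y ∧
      D.vol a (n + r) (aff ℚ B) = D.vol a n Y

/-- The equivalences (1) and (2), and (3) if `J` holds. -/
def Equivalences (P : ℕ → ℤ → Sch ℚ → Prop) (J : Prop) : Prop :=
  ∀ a : ℕ,
    List.TFAE [∃ᶠ n in Filter.atTop, Middle P a n, ∀ n, Middle P a n,
      ∀ Y : Sch ℚ, SmoothProj Y → ∀ n, P a n Y,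
      ∀ X : Sch ℚ, FT True X → ∀ n, P a n X] ∧
    (∀ (B : Type) [CommRing B] [Algebra ℚ B] [Algebra.FiniteType ℚ B] (n : ℤ),
      OneMiddle P a n (aff ℚ B)) ∧
    (J → ∀ Y : Sch ℚ, SmoothProj Y → ∀ n : ℤ, OneMiddle P a n Y)

lemma middle_iff (P : ℕ → ℤ → Sch ℚ → Prop) (a n : ℕ) :
    Middle P a n ↔ LineAt ℚ (P a) (-(a + 4 : ℤ)) n := by
  refine forall_congr' fun N => forall_congr' fun s => forall_congr' fun _ => ?_
  refine ⟨fun h h1 => h (by omega), fun h h1 => h (by omega)⟩

lemma one_aff (P : ℕ → ℤ → Sch ℚ → Prop) (a : ℕ) (hP : Lined (P a)) (B : Type) [CommRing B]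
    [Algebra ℚ B] [Algebra.FiniteType ℚ B] (n : ℤ) : OneMiddle P a n (aff ℚ B) := by
  obtain ⟨c₀, h⟩ := central isPrimeField_rat B (-(a + 4 : ℤ)) n
  refine ⟨c₀, fun c hc => ?_⟩
  obtain ⟨N, s, hs, hn, h1⟩ := h c hc
  exact ⟨N, s, hs, by omega, h1 _ hP⟩

theorem equivalences (P : ℕ → ℤ → Sch ℚ → Prop) (hH : Hironaka ℚ) (hP : ∀ a, Lined (P a))
    (J : Prop) (hJ : J → ∀ Y : Sch ℚ, SmoothProj Y → ∃ (r : ℕ) (B : Type) (_ : CommRing B)
      (_ : Algebra ℚ B), Algebra.FiniteType ℚ B ∧ ∀ (a : ℕ) (n : ℤ),
        (P a (n + r) (aff ℚ B) ↔ P a n Y)) : Equivalences P J := by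
  intro a
  refine ⟨?_, fun B _ _ _ n => one_aff P a (hP a) B n, fun hj Y hY n => ?_⟩
  · have h1 := central_tfae isPrimeField_rat hH (hP a) (-(a + 4 : ℤ))
    have h2 : (∃ᶠ n in Filter.atTop, Middle P a n) ↔
        ∃ᶠ n in Filter.atTop, LineAt ℚ (P a) (-(a + 4 : ℤ)) n :=
      Filter.frequently_congr (Filter.Eventually.of_forall fun n => middle_iff P a n)
    have h3 : (∀ n, Middle P a n) ↔ ∀ n, LineAt ℚ (P a) (-(a + 4 : ℤ)) n :=
      forall_congr' fun n => middle_iff P a n
    rw [h2, h3]
    exact h1
  · obtain ⟨r, B, _, _, hB, h⟩ := hJ hj Y hY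
    obtain ⟨n₀, h3⟩ := one_aff P a (hP a) B (n + r)
    refine ⟨n₀, fun n' hn' => ?_⟩
    obtain ⟨N, s, hs, hn, h4⟩ := h3 n' hn'
    exact ⟨N, s, hs, hn, h4.trans (h a n)⟩

/-- The sequence of the hypersurfaces `V_m`, with the indices `n_m`, is sufficient for `P a`. -/
def Suffices (P : ℕ → ℤ → Sch ℚ → Prop) (a : ℕ) (v : ℕ → Hyp) : Prop :=
  List.TFAE [∃ᶠ m in Filter.atTop, P a (v m).c (relHyp ℚ (v m).s),
    ∀ m, P a (v m).c (relHyp ℚ (v m).s),
    ∀ Y : Sch ℚ, SmoothProj Y → ∀ n, P a n Y,
    ∀ X : Sch ℚ, FT True X → ∀ n, P a n X] ∧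
  ∀ X : Sch ℚ, FT True X → ∀ n : ℤ, ∃ m₀ : ℕ, ∀ m, m₀ ≤ m →
    P a (v m).c (relHyp ℚ (v m).s) → P a n X

/-- **Beilinson's conjectures and the middle weight.** See the explanations above. `hH` is
Hironaka's theorem; `point` is Borel's theorem for the field `ℚ`. -/
theorem result (hH : Hironaka ℚ) :
    (∃ v : ℕ → ℕ → Hyp,
      (∀ a m, (v a m).s.Nonempty ∧ ((v a m).s.card + (v a m).n - 1 : ℤ) = 2 * (v a m).c - a - 3 ∧
        m ≤ (v a m).c) ∧
      ∀ {D : RegData.{w} (ℝˣ ⧸ ratUnits)}, IsReg D →
        (∀ (a : ℕ) (n : ℤ), RegVol D a n (aff ℚ ℚ)) →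
        Equivalences (RegIso D) (Jouanolou D) ∧ Equivalences (RegVol D) (Jouanolou D) ∧
        ∀ a, Suffices (RegIso D) a (v a)) ∧
    ∀ (N : ℕ) (s : Finset (Rel (Fin N))), (relCub ℤ s).totalDegree ≤ 3 ∧
      ∀ (R : Type) [CommRing R], MvPolynomial.map (Int.castRingHom R) (relCub ℤ s) = relCub R s ∧
        Smooth (relHyp R s).hom := by
  refine ⟨?_, fun n s => ⟨totalDegree_relCub ℤ s, fun R _ => ⟨map_relCub _ s, smooth_relHyp R s⟩⟩⟩
  choose v hv hs using fun a : ℕ => one_sequence ℚ isPrimeField_rat (-(a + 4 : ℤ))
  refine ⟨v, fun a m => ⟨(hv a m).1, ?_, (hv a m).2.2⟩, ?_⟩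
  · have h := (hv a m).2.1
    omega
  intro D hD point
  refine ⟨equivalences _ hH (fun a => lined_regIso hD a fun n => (point a n).1) _ ?_,
    equivalences _ hH (fun a => lined_regVol hD a (point a)) _ ?_, fun a => ?_⟩
  · intro hJ Y hY
    obtain ⟨r, B, _, _, hB, h⟩ := hJ Y hY
    exact ⟨r, B, _, _, hB, fun a n => (h a n).1.bij⟩
  · intro hJ Y hY
    obtain ⟨r, B, _, _, hB, h⟩ := hJ Y hY
    refine ⟨r, B, _, _, hB, fun a n => ?_⟩
    obtain ⟨h1, h2⟩ := h a n
    rw [RegVol, RegVol, h1.bij, h2]
  · have hL := lined_regIso hD a fun n => (point a n).1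
    have hF : Factors (RegIso D a) := factors_regIso hD a
    refine ⟨one_tfae hH (hs a) hL hF, fun X hX n => ?_⟩
    obtain ⟨m₀, h⟩ := hs a X hX n
    exact ⟨m₀, fun m hm h1 => h m hm _ hL hF h1⟩

end Pool.Agent.Results.MP_15b3df_nt.MiddleWeight
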