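import Pool.Agent.H442.Ex6
import Pool.Agent.H442.KrDens
set_option autoImplicit false

/-!
Beilinson's regulator on `K_2` of the hyperelliptic curves
`z + 1/z = t + lam ∏_{i ≤ g} (x - α_i) / x`, that is `y² = (t x + lam ∏ (x - α_i))² - 4 x²`, of odd
genus `g`, over `ℚ`: all classes in `K_2` of the curve (unramified at all its closed points) which
are sums of symbols `{z, u}`, `u` ANY function on the curve, and of classes invariant under the
hyperelliptic involution. They are integral, their space is determined explicitly, the regulator is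
injective on its tensor product with `ℝ`, and it is an isomorphism onto `ℝ^g` if `lam` and the
`|α_i|` are powers of one number; the points `(lam, α_0, ..., α_g)` for which it is an isomorphism
are Zariski dense, for every odd genus `g ≥ 3`.
-/

namespace Pool.Agent.Results.MP_15b3df_nt.OddGenusIsomorphism

open Polynomial

open Pool.Agent.TH826.MK (KQ symb Torus Unramified)

open Pool.Agent.Helper537_Sym (regR)

open Pool.Agent.Helper537_Cos (HUnr)

open Pool.Agent.H442

variable {g : ℕ}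

/-- The polynomial `G = t x + lam ∏_{i ≤ g} (x - α_i)`. -/
noncomputable def G (t lam : ℤ) (α : Fin (g + 1) → ℤ) : ℚ[X] :=
  C (t : ℚ) * X + C (lam : ℚ) * ∏ i, (X - C (α i : ℚ))

/-- The polynomial `f = G² - 4 x²` of degree `2 g + 2`. -/
noncomputable def F (t lam : ℤ) (α : Fin (g + 1) → ℤ) : ℚ[X] := G t lam α ^ 2 - 4 * X ^ 2

/-- The coordinate ring `ℚ[x, y]/(y² - f(x))`. -/
abbrev CRing (f : ℚ[X]) : Type := AdjoinRoot (X ^ 2 - C f : ℚ[X][X])

/-- The polynomials in `x` as functions on the curve. -/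
noncomputable def fx (f : ℚ[X]) (L : Type*) [Field L] [Algebra (CRing f) L] : ℚ[X] →+* L :=
  (algebraMap (CRing f) L).comp (AdjoinRoot.of _)

/-- The function `y`. -/
noncomputable def fy (f : ℚ[X]) (L : Type*) [Field L] [Algebra (CRing f) L] : L :=
  algebraMap (CRing f) L (AdjoinRoot.root _)

/-- The space `V` generated by the symbols `{z, u}`, where `u` is any non-zero element of `L`, and
by all classes which are invariant under `σ`. -/
noncomputable def V {L : Type*} [Field L] (σ : L →+* L) (z : Lˣ) : Submodule ℚ (KQ L 2) :=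
  Submodule.span ℚ {s | ∃ u : Lˣ, s = symb ![z, u]} ⊔
    LinearMap.eqLocus (KQ.map 2 σ) LinearMap.id

/-- The classes in `V` which are unramified at all discrete valuations of `L` that are trivial on
`ℚ` (these valuations are the closed points of the smooth projective curve `X` over `ℚ` with
function field `L`, so these are the classes in `V` that come from `K_2(X) ⊗ ℚ`). -/
noncomputable def VX {L : Type*} [Field L] (σ : L →+* L) (z : Lˣ) : Submodule ℚ (KQ L 2) :=
  V σ z ⊓ HUnr L

/-- `n` is a multiplicative relation between the numbers `lam^{1/g} α_i`: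
`∑ n_i (g v_p(α_i) + v_p(lam)) = 0` for all primes `p`. -/
def IsRelation (lam : ℤ) (α : Fin (g + 1) → ℤ) (n : Fin (g + 1) → ℚ) : Prop :=
  ∀ p : ℕ, p.Prime → ∑ i, n i * (g * padicValInt p (α i) + padicValInt p lam : ℚ) = 0

theorem IsRelation.add {lam : ℤ} {α : Fin (g + 1) → ℤ} {m n : Fin (g + 1) → ℚ}
    (hm : IsRelation lam α m) (hn : IsRelation lam α n) : IsRelation lam α (m + n) := by
  intro p hp
  have h1 := hm p hp
  have h2 := hn p hp
  simp only [Pi.add_apply, add_mul, Finset.sum_add_distrib]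
  rw [h1, h2, add_zero]

theorem IsRelation.zero (lam : ℤ) (α : Fin (g + 1) → ℤ) : IsRelation lam α 0 := by
  intro p _
  simp

theorem IsRelation.smul {lam : ℤ} {α : Fin (g + 1) → ℤ} (c : ℚ) {n : Fin (g + 1) → ℚ}
    (hn : IsRelation lam α n) : IsRelation lam α (c • n) := by
  intro p hp
  have h1 := hn p hp
  simp only [Pi.smul_apply, smul_eq_mul, mul_assoc, ← Finset.mul_sum]
  rw [h1, mul_zero]

/-- The space of the multiplicative relations between the numbers `lam^{1/g} α_i`. -/
def relations (lam : ℤ) (α : Fin (g + 1) → ℤ) : Submodule ℚ (Fin (g + 1) → ℚ) where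
  carrier := {n | IsRelation lam α n}
  add_mem' := fun hm hn => IsRelation.add hm hn
  zero_mem' := IsRelation.zero lam α
  smul_mem' := fun c _ hn => IsRelation.smul c hn

/-- The space `W` consists of the classes `∑ n_i ({z, x - α_i} + g⁻¹ {z, lam})`, where `n` is a
relation. -/
def Explicit {L : Type*} [Field L] (e : ℚ[X] →+* L) (z : Lˣ) (lam : ℤ) (α : Fin (g + 1) → ℤ)
    (W : Submodule ℚ (KQ L 2)) : Prop :=
  ∃ (w : Fin (g + 1) → Lˣ) (c : Lˣ), (∀ i, (w i : L) = e (X - C (α i : ℚ))) ∧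
    (c : L) = e (C (lam : ℚ)) ∧
    ∀ κ : KQ L 2, κ ∈ W ↔ ∃ n ∈ relations lam α,
      κ = ∑ i, n i • (symb ![z, w i] + (g : ℚ)⁻¹ • symb ![z, c])

theorem relations_eq (lam : ℤ) (α : Fin (g + 1) → ℤ) :
    relations lam α = relS (lam : ℚ) (fun i => (α i : ℚ)) := by
  ext n
  rw [mem_relS]
  have h : ∀ p : ℕ, (∑ i, n i * (((g + 1 - 1 : ℕ) : ℚ) * (padicValRat p (α i : ℚ) : ℚ) +
      (padicValRat p (lam : ℚ) : ℚ))) =
      ∑ i, n i * (g * padicValInt p (α i) + padicValInt p lam : ℚ) := by
    intro p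
    refine Finset.sum_congr rfl fun i _ => ?_
    rw [Nat.add_sub_cancel, padicValRat.of_int, padicValRat.of_int]
    push_cast
    rfl
  constructor
  · intro h1 p
    rw [← h1 p p.2]
    exact h p
  · intro h1 p hp
    rw [← h1 ⟨p, hp⟩]
    exact (h p).symm

/-- The result for a polynomial which is equal to `f`. -/
theorem aux {t lam : ℤ} {α : Fin (g + 1) → ℤ} (H : Siz g lam α) (hN : NumC (g + 1) lam α)
    (ht : |t| ≤ 2) (f P : ℚ[X]) (hf : f = cvf t (lam : ℚ) (fun i => (α i : ℚ)))
    (hP : P = Gx t (lam : ℚ) (fun i => (α i : ℚ))) :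
    Squarefree f ∧ f.natDegree = 2 * g + 2 ∧ IsDomain (CRing f) ∧
    ∀ (L : Type*) [Field L] [Algebra (CRing f) L] [IsFractionRing (CRing f) L],
      ∃ (σ : L →+* L) (z : Lˣ), (∀ Q, σ (fx f L Q) = fx f L Q) ∧ σ (fy f L) = -fy f L ∧
        2 * fx f L X * (z : L) = fx f L P + fy f L ∧
        VX σ z ≤ Unramified L 2 ∧ FiniteDimensional ℚ (VX σ z) ∧
        Explicit (fx f L) z lam α (VX σ z) ∧
        Module.finrank ℚ (VX σ z) = Module.finrank ℚ (relations lam α) ∧
        ∃ Γ : Fin g → Torus L 1, Function.Injective (regR Γ (VX σ z)) := by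
  subst hf hP
  have hdom := H.dom ht
  have hg := H.g2
  refine ⟨H.sqf ht, by rw [natDegree_cvf (by omega) H.l0q]; ring, hdom, ?_⟩
  intro L _ _ _
  obtain ⟨σ, h1, h2⟩ := exists_sigma (cvf t (lam : ℚ) (fun i => (α i : ℚ))) L
  obtain ⟨h3, h4, h5, h6⟩ := main6 H hN ht L h1 h2
  have ha0 : ∀ i, ((α i : ℚ)) ≠ 0 := fun i => by exact_mod_cast H.a0 i
  have hinj := xe_inj (cvf t (lam : ℚ) (fun i => (α i : ℚ))) L
  refine ⟨σ, zu t (lam : ℚ) (fun i => (α i : ℚ)) L, h1, h2, ?_, h3, h4, ?_, ?_, h6⟩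
  · show 2 * xe _ L X * ze _ _ _ L = _
    unfold ze
    have h7 := Pool.Agent.Helper537_All.e_ne hinj (P := X) X_ne_zero
    have h8 := two_ne' L hinj
    field_simp
    rfl
  · have HC := mk_cx (L := L) (t := t) (lam := (lam : ℚ)) (α := fun i => (α i : ℚ)) (by omega)
      ht H.l0q ha0 h1 h2
    have hV := vx_eq HC hN
    refine ⟨fun i => Pool.Agent.Helper537_All.pu _ (X - C (α i : ℚ)),
      Pool.Agent.Helper537_All.pu _ (C (lam : ℚ)),
      fun i => Pool.Agent.Helper537_All.pu_val hinj (X_sub_C_ne_zero _),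
      Pool.Agent.Helper537_All.pu_val hinj (C_ne_zero.2 H.l0q), fun κ => ?_⟩
    have h9 : κ ∈ VX σ (zu t (lam : ℚ) (fun i => (α i : ℚ)) L) ↔
        κ ∈ Vall σ (zu t (lam : ℚ) (fun i => (α i : ℚ)) L) ⊓ HUnr L := Iff.rfl
    rw [h9, hV, relations_eq]
    constructor
    · rintro ⟨n, hn, rfl⟩
      exact ⟨n, hn, rfl⟩
    · rintro ⟨n, hn, rfl⟩
      exact ⟨n, hn, rfl⟩
  · rw [relations_eq]
    exact h5

/-- The numerical hypotheses. They imply that `g` is odd (`g` is prime to `p` and to `p - 1`).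
Example: `g ≥ 3` odd, `lam = 10^b`, where `b` is prime to `g`, `p = 2`, `q = 5`, and the `α_i` are
`± 10^A, ± 10^{A-1}, ..., ± 10^{A-(g-1)/2}`, where `A` is large. -/
structure Conditions (g : ℕ) (lam : ℤ) (α : Fin (g + 1) → ℤ) (p q : ℕ) : Prop where
  genus : 2 ≤ g
  lam_pos : 0 < lam
  ne_zero : ∀ i, α i ≠ 0
  sep : ∀ i j, i ≠ j → max |α i| |α j| ≤ 2 * |α i - α j|
  big : ∃ i, 2 ^ (8 * g * (g + 1) ^ 2) < lam * |α i| ^ g
  prime_p : p.Prime
  prime_q : q.Prime
  p_ne_q : p ≠ q
  five_le : 5 ≤ q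
  coprime_p : (p * (p - 1) * padicValInt p lam).Coprime g
  coprime_q : (padicValInt q lam).Coprime g
  size : ∀ r, r = p ∨ r = q → ∀ i,
    2 * lam * |α i| < (r : ℤ) ^ (2 * padicValInt r lam + ∑ j, padicValInt r (α j))

/-- `lam` and all the `|α_i|` are powers of one number `s ≥ 2`. -/
def Powers (lam : ℤ) (α : Fin (g + 1) → ℤ) : Prop :=
  ∃ (s b : ℕ) (a : Fin (g + 1) → ℕ), 2 ≤ s ∧ lam = (s : ℤ) ^ b ∧ ∀ i, |α i| = (s : ℤ) ^ a i

/-- `σ` fixes `x` and maps `y` to `-y` (the hyperelliptic involution), `z = (G + y) / (2 x)`. -/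
structure IsPair (t lam : ℤ) (α : Fin (g + 1) → ℤ) (L : Type*) [Field L]
    [Algebra (CRing (F t lam α)) L] (σ : L →+* L) (z : Lˣ) : Prop where
  fix : ∀ Q, σ (fx (F t lam α) L Q) = fx (F t lam α) L Q
  neg : σ (fy (F t lam α) L) = -fy (F t lam α) L
  eqz : 2 * fx (F t lam α) L X * (z : L) = fx (F t lam α) L (G t lam α) + fy (F t lam α) L

/-- There are `g` loops for which the regulator `ℝ ⊗ W → ℝ^g` is injective. -/
def RegInjective (g : ℕ) {L : Type*} [Field L] (W : Submodule ℚ (KQ L 2)) : Prop :=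
  ∃ Γ : Fin g → Torus L 1, Function.Injective (regR Γ W)

/-- There are `g` loops for which the regulator `ℝ ⊗ W → ℝ^g` is bijective. -/
def RegBijective (g : ℕ) {L : Type*} [Field L] (W : Submodule ℚ (KQ L 2)) : Prop :=
  ∃ Γ : Fin g → Torus L 1, Function.Bijective (regR Γ W)

/-- `W` has finite dimension `d` over `ℚ`. -/
def HasDim {M : Type*} [AddCommGroup M] [Module ℚ M] (W : Submodule ℚ M) (d : ℕ) : Prop :=
  FiniteDimensional ℚ W ∧ Module.finrank ℚ W = d

/-- What is proved about the space `W = VX`: it is integral, explicitly known, its dimension is the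
dimension of the space of relations, and the regulator is injective on its tensor product with
`ℝ`; if `lam` and the `|α_i|` are powers of one number, the dimension is `g` and the regulator is
bijective. -/
structure Conclusion {L : Type*} [Field L] (e : ℚ[X] →+* L) (z : Lˣ) (lam : ℤ)
    (α : Fin (g + 1) → ℤ) (W : Submodule ℚ (KQ L 2)) : Prop where
  integral : W ≤ Unramified L 2
  explicit : Explicit e z lam α W
  dim : HasDim W (Module.finrank ℚ (relations lam α))
  inj : RegInjective g W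
  bij : Powers lam α → HasDim W g ∧ RegBijective g W

/-- Let `g ≥ 2`, let `t` and `lam > 0` be integers with `|t| ≤ 2`, and let `α_0, ..., α_g` be
non-zero integers such that `max(|α_i|, |α_j|) ≤ 2 |α_i - α_j|` for `i ≠ j` and
`lam |α_i|^g > 2^{8 g (g+1)²}` for at least one `i`. Suppose that there are different primes `p` and
`q ≥ 5` such that `g` is prime to `p (p - 1) v_p(lam)` and to `v_q(lam)` (in particular `g` is odd)
and such that `2 lam |α_i| < r^{2 v_r(lam) + ∑_j v_r(α_j)}` for `r = p, q` and all `i`. (For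
example: `g ≥ 3` odd, `lam = 10^b`, where `b` is prime to `g`, `p = 2`, `q = 5`, and the `α_i` are
`± 10^A, ± 10^{A-1}, ..., ± 10^{A-(g-1)/2}`, where `A` is large.) Put
`G = t x + lam ∏ (x - α_i)`, `f = G² - 4 x²`. Then `f` is squarefree of degree `2 g + 2`, so that
`y² = f(x)` is a hyperelliptic curve of genus `g` over `ℚ`.

Let `L` be its function field. There are the endomorphism `σ` of `L` which fixes `x` and maps `y`
to `-y` (it is the hyperelliptic involution) and the function `z = (G + y) / (2 x)`, a solution of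
`z + 1/z = t + lam ∏ (x - α_i) / x`. Let `V` be the subspace of `K_2^M(L) ⊗ ℚ` generated by the
symbols `{z, u}`, where `u` is ANY non-zero element of `L`, and by all classes which are invariant
under `σ`. Then the classes in `V` which are unramified at all discrete valuations of `L` that are
trivial on `ℚ` (the classes coming from `K_2` of the smooth projective curve over `ℚ`) are
unramified at all discrete valuations of `L` (they are integral), they are exactly the classes
`∑ n_i ({z, x - α_i} + g⁻¹ {z, lam})`, where `n` runs through the rational relations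
`∑ n_i (g v_p(α_i) + v_p(lam)) = 0` for all primes `p`, the dimension of their space is equal to the
dimension of the space of these relations, and there are `g` loops `Γ_l` in the spectrum of `L` such
that the regulator `r ⊗ w ↦ (r reg_{Γ_l}(w))_l` from the tensor product of this space with `ℝ` to
`ℝ^g` is injective.

If moreover `lam` and all `|α_i|` are powers of one number `s ≥ 2`, then the dimension is exactly
`g`, and the regulator is bijective. -/
theorem explicit_part (g : ℕ) (t lam : ℤ) (ht : |t| ≤ 2) (α : Fin (g + 1) → ℤ) (p q : ℕ)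
    (H : Conditions g lam α p q) :
    Squarefree (F t lam α) ∧ (F t lam α).natDegree = 2 * g + 2 ∧ IsDomain (CRing (F t lam α)) ∧
    ∀ (L : Type*) [Field L] [Algebra (CRing (F t lam α)) L]
      [IsFractionRing (CRing (F t lam α)) L],
      ∃ (σ : L →+* L) (z : Lˣ), IsPair t lam α L σ z ∧
        Conclusion (fx (F t lam α) L) z lam α (VX σ z) := by
  obtain ⟨hg, hlam, hα, hsep, hbig, hp, hq, hpq, hq5, hcp, hcq, hsize⟩ := H
  have HS : Siz g lam α := ⟨hg, hlam, hα, hsep, hbig⟩
  -- the maximum of the `|α_i|`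
  obtain ⟨M, hM, i₁, hi₁⟩ : ∃ M : ℕ, (∀ i, |α i| ≤ M) ∧ ∃ i, |α i| = M := by
    obtain ⟨i₁, -, h⟩ := Finset.exists_max_image Finset.univ (fun i => |α i|)
      ⟨0, Finset.mem_univ _⟩
    exact ⟨(α i₁).natAbs, fun i => by rw [Int.natCast_natAbs]; exact h i (Finset.mem_univ i), i₁,
      (Int.natCast_natAbs _).symm⟩
  have HN : NumC (g + 1) lam α := by
    refine ⟨by omega, hlam.ne', hα, p, q, M, hp, hq, hpq, hq5, ?_, ?_, hM, ?_, ?_⟩
    · rw [Nat.add_sub_cancel]
      exact hcp
    · rw [Nat.add_sub_cancel]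
      exact hcq
    · obtain ⟨i, hi⟩ := hbig
      rw [Nat.add_sub_cancel, abs_of_pos hlam]
      have h1 : lam * |α i| ^ g ≤ lam * (M : ℤ) ^ g :=
        mul_le_mul_of_nonneg_left (pow_le_pow_left₀ (abs_nonneg _) (hM i) g) hlam.le
      have h2 : (8 : ℤ) * 2 ^ g ≤ 2 ^ (8 * g * (g + 1) ^ 2) := by
        calc (8 : ℤ) * 2 ^ g = 2 ^ (3 + g) := by rw [pow_add]; norm_num
          _ ≤ 2 ^ (8 * g * (g + 1) ^ 2) := by
              refine pow_le_pow_right₀ (by norm_num) ?_
              have : 1 ≤ (g + 1) ^ 2 := Nat.one_le_pow _ _ (by omega)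
              nlinarith
      linarith
    · intro r hr
      have h1 := hsize r hr i₁
      rw [hi₁] at h1
      have h2 : ((2 * lam.natAbs * M : ℕ) : ℤ) = 2 * lam * M := by
        push_cast
        rw [abs_of_pos hlam]
      have h3 : ((2 * lam.natAbs * M : ℕ) : ℤ) <
          ((r ^ (2 * padicValInt r lam + ∑ j, padicValInt r (α j)) : ℕ) : ℤ) := by
        rw [h2]
        push_cast
        exact h1
      exact_mod_cast h3
  obtain ⟨h1, h2, h3, h4⟩ := aux HS HN ht (F t lam α) (G t lam α) rfl rfl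
  refine ⟨h1, h2, h3, ?_⟩
  intro L _ _ _
  obtain ⟨σ, z, h5, h6, h7, h8, h9, h10, h11, Γ, h12⟩ := h4 L
  refine ⟨σ, z, ⟨h5, h6, h7⟩, ⟨h8, h10, ⟨h9, h11⟩, ⟨Γ, h12⟩, ?_⟩⟩
  rintro ⟨s, b, a, hs, hl, ha⟩
  have hε : ∀ i, ∃ ε : ℤˣ, α i = (ε : ℤ) * (s : ℤ) ^ a i := by
    intro i
    rcases abs_choice (α i) with h | h
    · exact ⟨1, by rw [← ha i, h, Units.val_one, one_mul]⟩
    · exact ⟨-1, by rw [← ha i, h, Units.val_neg, Units.val_one]; ring⟩
  choose ε hε' using hε
  have hne : ∃ i, g * a i + b ≠ 0 := by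
    obtain ⟨i, hi⟩ := hbig
    refine ⟨i, fun h => ?_⟩
    have hb : b = 0 := by omega
    have ha0 : a i = 0 := by
      have h13 : g * a i = 0 := by omega
      rcases Nat.mul_eq_zero.1 h13 with h14 | h14
      · omega
      · exact h14
    rw [ha i, hl, hb, ha0, pow_zero, one_pow, one_mul] at hi
    have : (1 : ℤ) ≤ 2 ^ (8 * g * (g + 1) ^ 2) := one_le_pow₀ (by norm_num)
    omega
  have h13 : Module.finrank ℚ (VX σ z) = g := by
    rw [h11, relations_eq]
    exact finrank_relS_pow hs hl hε' hne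
  exact ⟨⟨h9, h13⟩, Γ, regR_bij Γ _ h9 h13 h12⟩

theorem valInt_two (n : ℕ) : padicValInt 2 ((10 : ℤ) ^ n) = n := by
  have h2 : Fact (Nat.Prime 2) := ⟨Nat.prime_two⟩
  unfold padicValInt
  rw [Int.natAbs_pow]
  have h : padicValNat 2 10 = 1 := by
    rw [show (10 : ℕ) = 2 * 5 from rfl, padicValNat.mul (by norm_num) (by norm_num),
      padicValNat.self (by norm_num), padicValNat.eq_zero_of_not_dvd (by norm_num)]
  have h3 := padicValNat.pow (p := 2) 10 n
  rw [h, mul_one] at h3
  exact h3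

theorem valInt_five (n : ℕ) : padicValInt 5 ((10 : ℤ) ^ n) = n := by
  have h5 : Fact (Nat.Prime 5) := ⟨by norm_num⟩
  unfold padicValInt
  rw [Int.natAbs_pow]
  have h : padicValNat 5 10 = 1 := by
    rw [show (10 : ℕ) = 5 * 2 from rfl, padicValNat.mul (by norm_num) (by norm_num),
      padicValNat.self (by norm_num), padicValNat.eq_zero_of_not_dvd (by norm_num)]
  have h3 := padicValNat.pow (p := 5) 10 n
  rw [h, mul_one] at h3
  exact h3

theorem sep_aux {a b : ℕ} (h : a < b) :
    max ((10 : ℤ) ^ a) (10 ^ b) ≤ 2 * |(10 : ℤ) ^ a - 10 ^ b| := by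
  obtain ⟨c, rfl⟩ : ∃ c, b = a + 1 + c := ⟨b - (a + 1), by omega⟩
  have h1 : (10 : ℤ) ^ (a + 1 + c) = 10 ^ a * 10 * 10 ^ c := by rw [pow_add, pow_add, pow_one]
  have h2 : (1 : ℤ) ≤ 10 ^ c := one_le_pow₀ (by norm_num)
  have h3 : (0 : ℤ) < 10 ^ a := by positivity
  have h4 : (10 : ℤ) ^ a * 10 ≤ 10 ^ (a + 1 + c) := by
    rw [h1]
    nlinarith
  rw [abs_sub_comm, abs_of_pos (by linarith), max_eq_right (by linarith)]
  linarith

theorem size_aux {x y : ℕ} (h : 3 + 10 * x < 3 * y) : 2 * (10 : ℤ) ^ x < 2 ^ y := by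
  refine lt_of_pow_lt_pow_left₀ 3 (by positivity) ?_
  calc (2 * (10 : ℤ) ^ x) ^ 3 = 8 * (1000 : ℤ) ^ x := by
        rw [mul_pow, ← pow_mul, mul_comm x 3, pow_mul]; norm_num
    _ ≤ 8 * (1024 : ℤ) ^ x :=
        mul_le_mul_of_nonneg_left (pow_le_pow_left₀ (by norm_num) (by norm_num) _) (by norm_num)
    _ = 2 ^ (3 + 10 * x) := by rw [pow_add, pow_mul]; norm_num
    _ < 2 ^ (3 * y) := pow_lt_pow_right₀ (by norm_num) h
    _ = (2 ^ y) ^ 3 := by rw [← pow_mul, mul_comm]

/-- Zariski density of the numerical conditions. -/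
theorem exists_conditions {g : ℕ} (hg : 3 ≤ g) (hodd : Odd g)
    (H : MvPolynomial (Fin (g + 2)) ℚ) (hH : H ≠ 0) :
    ∃ (lam : ℤ) (α : Fin (g + 1) → ℤ),
      MvPolynomial.eval (Fin.cons (lam : ℚ) fun i => (α i : ℚ) : Fin (g + 2) → ℚ) H ≠ 0 ∧
      Conditions g lam α 2 5 ∧ Powers lam α := by
  obtain ⟨B, hB2, hB⟩ := kron H hH
  set N : ℕ := 10 * B ^ (g + 2) with hN
  let a : Fin (g + 1) → ℕ := fun i => N + B ^ ((i : ℕ) + 1)
  have hP := hB (Fin.cons 1 a) (by
    intro i
    refine Fin.cases ?_ (fun i => ?_) i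
    · rw [Fin.cons_zero, Fin.val_zero, pow_zero]
    · rw [Fin.cons_succ, Fin.val_succ]
      show N + B ^ ((i : ℕ) + 1) ≡ B ^ ((i : ℕ) + 1) [MOD B ^ (g + 2)]
      rw [hN]
      have h1 : 10 * B ^ (g + 2) ≡ 0 [MOD B ^ (g + 2)] :=
        (Nat.modEq_zero_iff_dvd.2 (dvd_mul_left _ _))
      have h2 := h1.add_right (B ^ ((i : ℕ) + 1))
      rw [Nat.zero_add] at h2
      exact h2)
  obtain ⟨c, hc, hcop, hne⟩ := exists_ten hP (by omega : 0 < g) (8 * g * (g + 1) ^ 2 + 4)
  have hBpos : 0 < B := by omega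
  have hamono : ∀ i j : Fin (g + 1), i < j → a i < a j := by
    intro i j hij
    have : B ^ ((i : ℕ) + 1) < B ^ ((j : ℕ) + 1) :=
      Nat.pow_lt_pow_right (by omega) (by
        have : (i : ℕ) < j := hij
        omega)
    show N + _ < N + _
    omega
  have hale : ∀ i, a i ≤ N + B ^ (g + 1) := by
    intro i
    have : B ^ ((i : ℕ) + 1) ≤ B ^ (g + 1) := Nat.pow_le_pow_right hBpos (by
      have := i.2
      omega)
    show N + _ ≤ N + _
    omega
  have hN1 : 20 * B ^ (g + 1) ≤ N := by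
    have h1 : B ^ (g + 2) = B ^ (g + 1) * B := pow_succ _ _
    have h2 : B ^ (g + 1) * 2 ≤ B ^ (g + 1) * B := Nat.mul_le_mul_left _ hB2
    omega
  have hBp : 1 ≤ B ^ (g + 1) := Nat.one_le_pow _ _ hBpos
  have hsum : (g + 1) * N ≤ ∑ j, a j := by
    calc (g + 1) * N = ∑ _j : Fin (g + 1), N := by simp
      _ ≤ ∑ j, a j := Finset.sum_le_sum fun j _ => Nat.le_add_right _ _
  have hsum4 : 4 * N ≤ ∑ j, a j := (Nat.mul_le_mul_right N (by omega)).trans hsum
  have hodd2 : Nat.Coprime 2 g := Nat.coprime_two_left.2 hodd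
  refine ⟨(10 : ℤ) ^ c, fun i => (10 : ℤ) ^ (c * a i), ?_, ?_, ?_⟩
  · have h1 : MvPolynomial.eval (Fin.cons (((10 : ℤ) ^ c : ℤ) : ℚ)
        fun i => (((10 : ℤ) ^ (c * a i) : ℤ) : ℚ) : Fin (g + 2) → ℚ) H =
        (MvPolynomial.aeval (fun i => (X : ℚ[X]) ^ (Fin.cons 1 a : Fin (g + 2) → ℕ) i) H).eval
          ((10 : ℚ) ^ c) := by
      rw [eval_kron]
      congr 1
      congr 1
      funext i
      refine Fin.cases ?_ (fun i => ?_) i
      · rw [Fin.cons_zero, Fin.cons_zero, pow_one]
        push_cast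
        rfl
      · rw [Fin.cons_succ, Fin.cons_succ, ← pow_mul]
        push_cast
        rfl
    rw [h1]
    exact hne
  · have hsz : ∀ i, 3 + 10 * (c + c * a i) < 3 * (2 * c + ∑ j, c * a j) := by
      intro i
      rw [← Finset.mul_sum]
      have h1 := hale i
      have h2 : 3 + 10 * (c + c * a i) ≤ 3 + 10 * c + 10 * (c * (N + B ^ (g + 1))) := by
        have := Nat.mul_le_mul_left c h1
        omega
      have h3 : c * (4 * N) ≤ c * ∑ j, a j := Nat.mul_le_mul_left c hsum4
      have h4 : c * (20 * B ^ (g + 1)) ≤ c * N := Nat.mul_le_mul_left c hN1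
      have h5 : c * 1 ≤ c * B ^ (g + 1) := Nat.mul_le_mul_left c hBp
      have e1 : c * (4 * N) = 4 * (c * N) := by ring
      have e2 : c * (20 * B ^ (g + 1)) = 20 * (c * B ^ (g + 1)) := by ring
      have e3 : c * (N + B ^ (g + 1)) = c * N + c * B ^ (g + 1) := by ring
      rw [e1] at h3
      rw [e2] at h4
      rw [e3] at h2
      have hc4 : 4 ≤ c := by omega
      omega
    refine ⟨by omega, by positivity, fun i => by positivity, ?_, ⟨0, ?_⟩, Nat.prime_two,
      by norm_num, by norm_num, le_refl _, ?_, ?_, ?_⟩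
    · intro i j hij
      have hne' : c * a i ≠ c * a j := by
        intro h
        have h1 := Nat.eq_of_mul_eq_mul_left (by omega : 0 < c) h
        rcases lt_or_gt_of_ne hij with h2 | h2
        · exact (hamono _ _ h2).ne h1
        · exact (hamono _ _ h2).ne' h1
      rw [abs_of_pos (by positivity : (0 : ℤ) < 10 ^ (c * a i)),
        abs_of_pos (by positivity : (0 : ℤ) < 10 ^ (c * a j))]
      rcases lt_or_gt_of_ne hne' with h1 | h1
      · exact sep_aux h1
      · rw [max_comm, abs_sub_comm]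
        exact sep_aux h1
    · have h1 : (2 : ℤ) ^ (8 * g * (g + 1) ^ 2) < 2 ^ c :=
        pow_lt_pow_right₀ (by norm_num) (by omega)
      have h2 : (2 : ℤ) ^ c ≤ 10 ^ c := pow_le_pow_left₀ (by norm_num) (by norm_num) _
      have h3 : (1 : ℤ) ≤ |(10 : ℤ) ^ (c * a 0)| ^ g := by
        rw [abs_of_pos (by positivity)]
        exact one_le_pow₀ (one_le_pow₀ (by norm_num))
      have h4 : (0 : ℤ) < 10 ^ c := by positivity
      calc (2 : ℤ) ^ (8 * g * (g + 1) ^ 2) < 10 ^ c := lt_of_lt_of_le h1 h2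
        _ = 10 ^ c * 1 := (mul_one _).symm
        _ ≤ 10 ^ c * |(10 : ℤ) ^ (c * a 0)| ^ g := mul_le_mul_of_nonneg_left h3 h4.le
    · rw [valInt_two]
      exact Nat.Coprime.mul_left (Nat.Coprime.mul_left hodd2 (Nat.coprime_one_left g)) hcop
    · rw [valInt_five]
      exact hcop
    · intro r hr i
      rw [abs_of_pos (by positivity : (0 : ℤ) < 10 ^ (c * a i)), mul_assoc, ← pow_add]
      rcases hr with rfl | rfl
      · simp only [valInt_two]
        exact size_aux (hsz i)
      · simp only [valInt_five]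
        refine (size_aux (hsz i)).trans_le ?_
        exact pow_le_pow_left₀ (by norm_num) (by norm_num) _
  · refine ⟨10, c, fun i => c * a i, by norm_num, by norm_num, fun i => ?_⟩
    rw [abs_of_pos (by positivity)]
    norm_num

/-- What is proved about the curve `y² = f(x)`, `f = G² - 4 x²`, `G = t x + lam ∏ (x - α_i)`: `f` is
squarefree of degree `2 g + 2`, so that this is a hyperelliptic curve of genus `g` over `ℚ`; on its
function field `L` there are the hyperelliptic involution `σ` and the function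
`z = (G + y) / (2 x)`, a solution of `z + 1/z = t + lam ∏ (x - α_i) / x`, such that the space `VX` of
the classes in `K_2` of the curve, tensored with `ℚ`, which are sums of symbols `{z, u}` (`u` ANY
non-zero function) and of a class fixed by `σ`, is integral and explicitly known, and such that the
regulator is injective on its tensor product with `ℝ`. If `iso` is true, then the dimension of `VX`
is `g`, and the regulator is an isomorphism of its tensor product with `ℝ` onto `ℝ^g`. -/
def Holds.{u} (t lam : ℤ) (α : Fin (g + 1) → ℤ) (iso : Prop) : Prop :=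
  Squarefree (F t lam α) ∧ (F t lam α).natDegree = 2 * g + 2 ∧ IsDomain (CRing (F t lam α)) ∧
    ∀ (L : Type u) [Field L] [Algebra (CRing (F t lam α)) L]
      [IsFractionRing (CRing (F t lam α)) L],
      ∃ (σ : L →+* L) (z : Lˣ), IsPair t lam α L σ z ∧
        Conclusion (fx (F t lam α) L) z lam α (VX σ z) ∧
        (iso → HasDim (VX σ z) g ∧ RegBijective g (VX σ z))

/-- (1) The theorem holds for all `(t, lam, α)` which satisfy the explicit conditions (for some `p`
and `q`). (2) For every odd `g ≥ 3` and every integer `t` with `|t| ≤ 2` the points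
`(lam, α_0, ..., α_g)` with integral coordinates for which the theorem holds and for which moreover
the regulator is an ISOMORPHISM of `VX`, tensored with `ℝ`, onto `ℝ^g`, are Zariski dense in the
affine space of dimension `g + 2`: they are not contained in the zeros of any nonzero polynomial
`H`. -/
theorem result :
    (∀ (g : ℕ) (t lam : ℤ), |t| ≤ 2 → ∀ (α : Fin (g + 1) → ℤ) (p q : ℕ),
      Conditions g lam α p q → Holds t lam α False) ∧
    (∀ g : ℕ, 3 ≤ g → Odd g → ∀ t : ℤ, |t| ≤ 2 → ∀ H : MvPolynomial (Fin (g + 2)) ℚ, H ≠ 0 →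
      ∃ (lam : ℤ) (α : Fin (g + 1) → ℤ),
        MvPolynomial.eval (Fin.cons (lam : ℚ) fun i => (α i : ℚ) : Fin (g + 2) → ℚ) H ≠ 0 ∧
        Conditions g lam α 2 5 ∧ Holds t lam α True) := by
  refine ⟨fun g t lam ht α p q hC => ?_, fun g hg hodd t ht H hH => ?_⟩
  · obtain ⟨h1, h2, h3, h4⟩ := explicit_part g t lam ht α p q hC
    refine ⟨h1, h2, h3, ?_⟩
    intro L _ _ _
    obtain ⟨σ, z, h5, h6⟩ := h4 L
    exact ⟨σ, z, h5, h6, fun h => h.elim⟩
  · obtain ⟨lam, α, hne, hC, hP⟩ := exists_conditions hg hodd H hH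
    obtain ⟨h1, h2, h3, h4⟩ := explicit_part g t lam ht α 2 5 hC
    refine ⟨lam, α, hne, hC, h1, h2, h3, ?_⟩
    intro L _ _ _
    obtain ⟨σ, z, h5, h6⟩ := h4 L
    exact ⟨σ, z, h5, h6, fun _ => h6.bij hP⟩

end Pool.Agent.Results.MP_15b3df_nt.OddGenusIsomorphism
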