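import Pool.Agent.H367.OT.GFam

/-!
# Beilinson's regulators and one sequence of cubics over the integers

A relation `r` of size `m` is one of the equations `x_i x_j = x_l`, `x_i + x_j = x_l`, `x_i = 1` with
`i, j, l < m`; the relations are numbered, the number of `r` is `ν(r)` (`relNum`), and `R_m` is the
number of all relations (`numRel m`). Let `G_m` be the following polynomial with integral coefficients
(`univG ℤ m`). There are variables `x_i` and `z_ij` for `i, j < m`, a variable `c_r` for every relation
`r`, and variables `y_{r,l}` for all relations `r` and `l < (m + 1)^2 2 ^ ν(r)`. The equations (`eqnG`)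
are

  `z_ij - x_i x_j`,  `c_r ^ 2 - c_r`,  `c_r ρ_r`,  `(1 - c_r) y_{r,l}`,

where `ρ_r` is the linear polynomial `z_ij - x_l`, `x_i + x_j - x_l` or `x_i - 1` of the relation.
`G_m` is the sum of the equations multiplied by further variables `t_e`, one for each equation. It has
degree three. Let `C_m` be the affine cubic hypersurface `G_m = 1` (`cubG R m` over the ring `R`); it is
smooth over the integers.

For a smooth projective scheme `Y` over `ℚ`, an integer `κ ≥ 2` and `q ∈ ℤ` let `A_κ^q(Y) =
H_M^{2q-κ}(Y, ℚ(q))_ℤ ⊗ ℝ` (the integral part in the definition of Scholl, which is functorial in Chow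
motives and which is the group of the problem for the varieties with a regular proper model over `ℤ`)
and `B_κ^q(Y) = H_𝒟^{2q-κ}(Y_ℝ, ℝ(q))`, with the regulator `A_κ^q(Y) → B_κ^q(Y)`. For fixed `κ` these
groups are additive functors of the Chow motive of `Y`, and they are zero for `q < 0` and `q > dim Y +
κ`.

Question Q1 is about the regulators with `i + 1 = 2q - κ` and `m = q - κ`; the condition `m < i/2`
means `κ ≥ 2`, and `0 ≤ i` means `κ + 1 ≤ 2q`. `Bei κ q X` is the statement of question Q1 for `X` and
these `i`, `m`, if `X` has a regular proper model over `ℤ` and `i ≤ 2 dim X` (there is no statement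
for the other `X`). It follows from the bijectivity of `A_κ^q(X) → B_κ^q(X)` (`known`). Conversely let
`Y` be a smooth projective scheme over `ℚ`. By de Jong there is an alteration `X' → Y`, such that `X'`
has a regular proper model over `ℤ`, and the Chow motive of `Y` is a direct factor of the motive of `X
= X' × ℙ^r`. For large `r` we have `i ≤ 2 dim X`. So the statement `Bei κ q X` implies that `A_κ^q(Y)
→ B_κ^q(Y)` is bijective (`alter`).

For a separated scheme `X` of finite type over `ℚ` let `W(X)` be the weight complex (Gillet, Soulé; a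
complex of Chow motives over `ℚ` with rational coefficients, for the cohomology with compact supports;
`W(X) = h(X)` for smooth projective `X`), and put `A_κ^{q,s}(X) = H^s(A_κ^q(W(X)))` and
`B_κ^{q,s}(X) = H^s(B_κ^q(W(X)))`. `BijAt (C κ) Prod.fst q X` says that the maps
`A_κ^{q,s}(X) → B_κ^{q,s}(X)` are isomorphisms for this `κ`, `q` and all `s`.

**Theorem.** Let `E_m` be the number of the equations, and for `N ∈ ℕ` let
`idx m q N = q + (m + 1)^2 N + E_m - 1`.

(1) Question Q1 has a positive answer (for all `X`, `i` and `m`) if and only if, for infinitely many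
`m`, the maps `A_κ^{idx m q N, s}(C_m) → B_κ^{idx m q N, s}(C_m)` are isomorphisms for all `s`, all `N
< 2 ^ R_m` and all `κ`, `q` such that `2 ≤ κ ≤ m / 2`, `κ + 1 ≤ 2q` and `q ≤ m`.

(2) For all `κ ≥ 2` and `q` with `κ + 1 ≤ 2q` question Q1 has a positive answer for these `i`, `m` and
all `X` if and only if the maps `A_κ^{idx m q N, s}(C_m) → B_κ^{idx m q N, s}(C_m)` are isomorphisms
for all `s` and all `N < 2 ^ R_m`, for infinitely many `m`.

(3) For every `κ ≥ 2` the hypersurfaces decide the statements (`Decides κ`): for every affine scheme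
`Spec B` of finite type over `ℚ` and all large `m` there is an `N` such that for `-κ ≤ q ≤ m` the
statement with the index `q` for `Spec B` is equivalent to the one with the index `idx m q N` for
`C_m`; and for every separated scheme `X` of finite type and all large `m` the statements with the
indices `idx m q N` for `C_m` imply the statement with the index `q` for `X`.

(4) `G_m` has integral coefficients and degree at most three, and `C_m` is smooth over all rings.

The hypotheses are standard: localisation sequences, affine bundles and products with `𝔾_m`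
(`IsWeightPair`); the weight complex of a scheme of dimension at most `d` consists of direct factors
of motives of smooth projective varieties of dimension at most `d` (`GenAt`, `PBound`). Nothing is
assumed on the regulator for the point.

Idea of the proof. The projection of `C_m` to the affine space with the coordinates `x, z, c, y` is an
affine bundle over the complement of the zero set `W_m` of the equations. The scheme `W_m` is the
disjoint union, over all sets `s` of relations (`c_r = 1` for `r ∈ s` and `c_r = 0` for the others), of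
the products `X_s × 𝔸 ^ ((m + 1)^2 N(s))`, where `X_s` is the affine scheme defined by the relations in
`s` and `N(s) = ∑_{r ∈ s} 2 ^ ν(r)`. The numbers `N(s) < 2 ^ R_m` are different, and the dimension of `X_s`
is at most `m`. The invariants with the indices `q < -c` and `q > dim + c` are zero, and `m + 2 c` is less
than `(m + 1)^2`. So the invariant of `W_m` with the index `q + (m + 1)^2 N(s)`, `-c ≤ q ≤ m`, is the
invariant of `X_s` with the index `q`; the other components do not contribute. Every affine scheme of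
finite type over a prime field is an `X_s`, for all large `m`.

The universal system of relations is the one of helper854 (`Pool.Agent.H854.SQ`).
-/

set_option autoImplicit false

open CategoryTheory CategoryTheory.Limits AlgebraicGeometry Pool.Agent.Y116.UV Pool.Agent.Z125.UN
  Pool.Agent.Q193.LT Pool.Agent.Q49.WU Pool.Agent.H854.SQ Pool.Agent.H367.OT
open Pool.Agent.H367.OS (isPrimeField_rat)

universe w



namespace Pool.Agent.Results.MP_15b3df_nt.OneSequenceOverTheIntegers

/-- The groups `A_κ^{q,s}`, `B_κ^{q,s}` of the weight complexes describe the statements `Bei κ q X` of question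
Q1 (`known`, `alter`), and they have the known standard properties. -/
structure Describes (Bei : ℕ → ℤ → Sch ℚ → Prop) (C : ℕ → PairData.{w} ℚ (ℤ × ℤ) ℝ) : Prop where
  known : ∀ κ, 2 ≤ κ → ∀ (q : ℤ) (X : Sch ℚ), SmoothProj X → BijAt (C κ) Prod.fst q X → Bei κ q X
  alter : ∀ (κ : ℕ) (q : ℤ), 2 ≤ κ → (κ : ℤ) + 1 ≤ 2 * q → ∀ Y : Sch ℚ, SmoothProj Y →
    ∃ X : Sch ℚ, SmoothProj X ∧ (Bei κ q X → BijAt (C κ) Prod.fst q Y)
  weight : ∀ κ, 2 ≤ κ → IsWeightPair (C κ)
  generated : ∀ κ, 2 ≤ κ → GenAt (C κ) Prod.fst
  bound : ∀ κ, 2 ≤ κ → PBound (C κ) Prod.fst κ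

/-- Question Q1 for one pair `κ`, `q`. -/
lemma Describes.iff {Bei : ℕ → ℤ → Sch ℚ → Prop} {C : ℕ → PairData.{w} ℚ (ℤ × ℤ) ℝ}
    (h : Describes Bei C) {κ : ℕ} {q : ℤ} (hκ : 2 ≤ κ) (hq : (κ : ℤ) + 1 ≤ 2 * q) :
    (∀ X : Sch ℚ, SmoothProj X → Bei κ q X) ↔
      ∀ Y : Sch ℚ, SmoothProj Y → BijAt (C κ) Prod.fst q Y := by
  constructor
  · intro g Y hY
    obtain ⟨X, hX, h1⟩ := h.alter κ q hκ hq Y hY
    exact h1 (g X hX)
  · exact fun g X hX => h.known κ hκ q X hX (g X hX)

/-- **Beilinson's regulators and one sequence of cubic hypersurfaces over the integers.** See the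
explanations above. -/
theorem result {Bei : ℕ → ℤ → Sch ℚ → Prop} {C : ℕ → PairData.{w} ℚ (ℤ × ℤ) ℝ}
    (h : Describes Bei C) :
    ((∀ (κ : ℕ) (q : ℤ), 2 ≤ κ → (κ : ℤ) + 1 ≤ 2 * q → ∀ X : Sch ℚ, SmoothProj X → Bei κ q X) ↔
      ∃ᶠ m in Filter.atTop, ∀ (κ : ℕ) (q : ℤ), 2 ≤ κ → 2 * κ ≤ m → (κ : ℤ) + 1 ≤ 2 * q → q ≤ m →
        ∀ N : ℕ, N < 2 ^ numRel m → BijAt (C κ) Prod.fst (idx m q N) (cubG ℚ m)) ∧
    (∀ (κ : ℕ) (q : ℤ), 2 ≤ κ → (κ : ℤ) + 1 ≤ 2 * q →
      ((∀ X : Sch ℚ, SmoothProj X → Bei κ q X) ↔
        ∃ᶠ m in Filter.atTop, ∀ N : ℕ, N < 2 ^ numRel m →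
          BijAt (C κ) Prod.fst (idx m q N) (cubG ℚ m))) ∧
    (∀ κ, 2 ≤ κ → Decides κ (BijAt (C κ) Prod.fst)) ∧
    ∀ m : ℕ, (univG ℤ m).totalDegree ≤ 3 ∧
      ∀ (R : Type) [CommRing R], MvPolynomial.map (Int.castRingHom R) (univG ℤ m) = univG R m ∧
        Smooth (cubG R m).hom := by
  have hd : ∀ κ, 2 ≤ κ → Decides κ (BijAt (C κ) Prod.fst) := fun κ hκ =>
    decides_pair isPrimeField_rat (h.generated κ hκ) (h.weight κ hκ) graded_weight (h.bound κ hκ)
  refine ⟨?_, fun κ q hκ hq => ?_, hd, cubG_facts⟩
  · have h1 := family_iff isPrimeField_rat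
      (ι := {x : ℕ × ℤ // 2 ≤ x.1 ∧ (x.1 : ℤ) + 1 ≤ 2 * x.2}) (c := fun x => x.1.1)
      (P := fun x => BijAt (C x.1.1) Prod.fst)
      (fun x => bounded_pair (h.weight x.1.1 x.2.1) graded_weight (h.bound x.1.1 x.2.1))
      (fun x q g => h.generated x.1.1 x.2.1 q g) (fun x => x.1.2)
    constructor
    · intro g
      refine (h1.mp fun x Y hY => (h.iff x.2.1 x.2.2).mp (g x.1.1 x.1.2 x.2.1 x.2.2) Y hY).mono ?_
      intro m hm κ q hκ hκm hq hqm N hN
      exact hm ⟨(κ, q), hκ, hq⟩ hκm (show -(κ : ℤ) ≤ q by omega) hqm N hN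
    · intro g κ q hκ hq
      refine (h.iff hκ hq).mpr fun Y hY => h1.mpr (g.mono ?_) ⟨(κ, q), hκ, hq⟩ Y hY
      intro m hm x hx _ hxm N hN
      exact hm x.1.1 x.1.2 x.2.1 hx x.2.2 hxm N hN
  · exact (h.iff hκ hq).trans (((hd κ hκ).index q (by omega)).out 1 0)

end Pool.Agent.Results.MP_15b3df_nt.OneSequenceOverTheIntegers
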